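import Mathlib

namespace Pool.Agent.H.MP_1660ca_co

open Finset PowerSeries

def K : ℕ → ℕ → ℕ → ℕ → ℕ
  | 0, _, _, _ => 1
  | n + 1, e, a, b => ∑ x ∈ range (a + 1), ∑ y ∈ range (b + 1),
      if x = e + y then K n e (a + 1) (b + 1)
      else if x < e + y then
        ∑ k : Fin (n + 1), n.choose k * K k e x y * K (n - k) (e + y - x) (a - x) (b - y)
      else 0
termination_by n => n
decreasing_by
  all_goals omega

lemma K_zero (e a b : ℕ) : K 0 e a b = 1 := by rw [K]

lemma K_succ (n e a b : ℕ) : K (n + 1) e a b = ∑ x ∈ range (a + 1), ∑ y ∈ range (b + 1),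
      if x = e + y then K n e (a + 1) (b + 1)
      else if x < e + y then
        ∑ k ∈ range (n + 1), n.choose k * K k e x y * K (n - k) (e + y - x) (a - x) (b - y)
      else 0 := by
  rw [K]
  refine sum_congr rfl fun x _ => sum_congr rfl fun y _ => ?_
  rw [Fin.sum_univ_eq_sum_range
    (fun k => n.choose k * K k e x y * K (n - k) (e + y - x) (a - x) (b - y))]

noncomputable def E (e a b : ℕ) : ℚ⟦X⟧ := PowerSeries.mk fun n => (K n e a b : ℚ) / n.factorial

lemma E_zero (e a b : ℕ) : coeff 0 (E e a b) = 1 := by simp [E, K_zero]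

lemma E_der (e a b : ℕ) : d⁄dX ℚ (E e a b) = ∑ x ∈ range (a + 1), ∑ y ∈ range (b + 1),
      if x = e + y then E e (a + 1) (b + 1)
      else if x < e + y then E e x y * E (e + y - x) (a - x) (b - y) else 0 := by
  ext n
  rw [coeff_derivative, map_sum]
  simp only [map_sum]
  have hn : (n.factorial : ℚ) ≠ 0 := by positivity
  have : coeff (n + 1) (E e a b) * ((n : ℚ) + 1) = (K (n + 1) e a b : ℚ) / n.factorial := by
    simp only [E, coeff_mk, Nat.factorial_succ]
    push_cast
    field_simp
  rw [this, K_succ]
  push_cast
  rw [sum_div]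
  refine sum_congr rfl fun x _ => ?_
  rw [sum_div]
  refine sum_congr rfl fun y _ => ?_
  split_ifs with h1 h2
  · simp [E]
  · rw [coeff_mul, Nat.sum_antidiagonal_eq_sum_range_succ_mk, sum_div]
    refine sum_congr rfl fun k hk => ?_
    have hk' : k ≤ n := by simpa [Nat.lt_succ_iff] using hk
    simp only [E, coeff_mk]
    rw [Nat.cast_choose ℚ hk']
    have h3 : (k.factorial : ℚ) ≠ 0 := by positivity
    have h4 : ((n - k).factorial : ℚ) ≠ 0 := by positivity
    field_simp
  · simp

def ins {α : Type*} (l : List α) (p : ℕ) (z : α) : List α := l.take p ++ z :: l.drop p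

abbrev R (m : ℕ) : List Bool := List.replicate m false

inductive Tl : ℕ → List Bool → List Bool → ℚ⟦X⟧ → Prop
  | nil (e : ℕ) : Tl e [] [] 1
  | cons (e a b : ℕ) (U V : List Bool) (F : ℚ⟦X⟧) : a ≤ e + b → Tl (e + b - a) U V F →
      Tl e (true :: (R b ++ U)) (true :: (R a ++ V)) (E e a b * F)

lemma Tl.zero {e U V F} (h : Tl e U V F) : coeff 0 F = 1 := by
  induction h with
  | nil => simp
  | cons e a b U V F _ _ ih =>
    rw [coeff_zero_eq_constantCoeff_apply] at *
    rw [map_mul, ih, ← coeff_zero_eq_constantCoeff_apply, E_zero, one_mul]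

lemma Tl.head {e U V F} (h : Tl e U V F) :
    (∀ p < U.length, 1 ≤ (U.take (p + 1)).count true) ∧
      ∀ q < V.length, 1 ≤ (V.take (q + 1)).count true := by
  cases h with
  | nil => simp
  | cons => simp

def cond (e : ℕ) (U V : List Bool) (p q : ℕ) : Prop :=
  (U.take (p + 1)).count true = (V.take (q + 1)).count true ∧ q ≤ p + e

instance (e U V p q) : Decidable (cond e U V p q) := by unfold cond; infer_instance

lemma take_lo {b p : ℕ} (U : List Bool) (h : p ≤ b) : (R b ++ U).take p = R p := by
  rw [List.take_append_of_le_length (by simpa using h)]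
  simp [h]

lemma drop_lo {b p : ℕ} (U : List Bool) (h : p ≤ b) : (R b ++ U).drop p = R (b - p) ++ U := by
  rw [List.drop_append_of_le_length (by simpa using h)]
  simp

lemma take_hi (b p : ℕ) (U : List Bool) : (R b ++ U).take (b + p) = R b ++ U.take p := by
  rw [List.take_append]; simp

lemma drop_hi (b p : ℕ) (U : List Bool) : (R b ++ U).drop (b + p) = U.drop p := by
  rw [List.drop_append]; simp

lemma ins_lo {b p : ℕ} (U : List Bool) (z : Bool) (h : p ≤ b) :
    ins (true :: (R b ++ U)) (p + 1) z = true :: (R p ++ z :: (R (b - p) ++ U)) := by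
  simp only [ins, List.take_succ_cons, List.drop_succ_cons, take_lo U h, drop_lo U h,
    List.cons_append]

lemma ins_hi (b p : ℕ) (U : List Bool) (z : Bool) :
    ins (true :: (R b ++ U)) (b + 1 + p + 1) z = true :: (R b ++ ins U (p + 1) z) := by
  have : b + 1 + p = b + (p + 1) := by ring
  simp only [ins, List.take_succ_cons, List.drop_succ_cons, this, take_hi, drop_hi,
    List.cons_append, List.append_assoc]

lemma cnt_lo {b p : ℕ} (U : List Bool) (h : p ≤ b) :
    ((true :: (R b ++ U)).take (p + 1)).count true = 1 := by
  simp [take_lo U h, List.count_replicate]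

lemma cnt_hi (b p : ℕ) (U : List Bool) :
    ((true :: (R b ++ U)).take (b + 1 + p + 1)).count true = (U.take (p + 1)).count true + 1 := by
  have : b + 1 + p = b + (p + 1) := by ring
  simp only [List.take_succ_cons, this, take_hi]
  simp [List.count_replicate]

lemma R_ins {b p : ℕ} (U : List Bool) (h : p ≤ b) :
    R p ++ false :: (R (b - p) ++ U) = R (b + 1) ++ U := by
  have : b + 1 = p + (1 + (b - p)) := by omega
  rw [this, R, R, R, List.replicate_add, List.replicate_add]
  simp

lemma step {e U V F} (h : Tl e U V F) : ∃ G : ℕ → ℕ → ℚ⟦X⟧,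
    (∀ p < U.length, ∀ q < V.length, cond e U V p q →
      Tl e (ins U (p + 1) (decide (q < p + e))) (ins V (q + 1) (decide (q < p + e))) (G p q)) ∧
    d⁄dX ℚ F = ∑ p ∈ range U.length, ∑ q ∈ range V.length,
      if cond e U V p q then G p q else 0 := by
  induction h with
  | nil e => exact ⟨fun _ _ => 0, by simp, by simp⟩
  | cons e a b U V F hab hT ih =>
    obtain ⟨G, hG1, hG2⟩ := ih
    have hh := hT.head
    have lU : (true :: (R b ++ U)).length = (b + 1) + U.length := by simp; ring
    have lV : (true :: (R a ++ V)).length = (a + 1) + V.length := by simp; ring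
    have c11 : ∀ p ≤ b, ∀ q ≤ a,
        (cond e (true :: (R b ++ U)) (true :: (R a ++ V)) p q ↔ q ≤ p + e) := by
      intro p hp q hq
      simp only [cond, cnt_lo U hp, cnt_lo V hq, true_and]
    have c12 : ∀ p ≤ b, ∀ q < V.length,
        ¬ cond e (true :: (R b ++ U)) (true :: (R a ++ V)) p (a + 1 + q) := by
      intro p hp q hq
      have := hh.2 q hq
      simp only [cond, cnt_lo U hp, cnt_hi]
      omega
    have c21 : ∀ p < U.length, ∀ q ≤ a,
        ¬ cond e (true :: (R b ++ U)) (true :: (R a ++ V)) (b + 1 + p) q := by
      intro p hp q hq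
      have := hh.1 p hp
      simp only [cond, cnt_lo V hq, cnt_hi]
      omega
    have c22 : ∀ p q, (cond e (true :: (R b ++ U)) (true :: (R a ++ V)) (b + 1 + p) (a + 1 + q) ↔
        cond (e + b - a) U V p q) := by
      intro p q
      simp only [cond, cnt_hi]
      omega
    refine ⟨fun p q => if p ≤ b then
        (if q = e + p then E e (a + 1) (b + 1) * F
          else E e q p * (E (e + p - q) (a - q) (b - p) * F))
      else E e a b * G (p - (b + 1)) (q - (a + 1)), ?_, ?_⟩
    · intro p hp q hq hc
      rw [lU] at hp
      rw [lV] at hq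
      by_cases hpb : p ≤ b
      · by_cases hqa : q ≤ a
        · rw [c11 p hpb q hqa] at hc
          rw [ins_lo U _ hpb, ins_lo V _ hqa]
          simp only [hpb, if_true]
          split_ifs with h1
          · have : decide (q < p + e) = false := by simp; omega
            rw [this, R_ins U hpb, R_ins V hqa]
            refine Tl.cons e (a + 1) (b + 1) U V F (by omega) ?_
            have : e + (b + 1) - (a + 1) = e + b - a := by omega
            rwa [this]
          · have : decide (q < p + e) = true := by simp; omega
            rw [this]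
            refine Tl.cons e q p _ _ _ (by omega) ?_
            refine Tl.cons _ (a - q) (b - p) U V F (by omega) ?_
            have : e + p - q + (b - p) - (a - q) = e + b - a := by omega
            rwa [this]
        · obtain ⟨q', rfl⟩ : ∃ q', q = a + 1 + q' := ⟨q - (a + 1), by omega⟩
          exact absurd hc (c12 p hpb q' (by omega))
      · obtain ⟨p', rfl⟩ : ∃ p', p = b + 1 + p' := ⟨p - (b + 1), by omega⟩
        by_cases hqa : q ≤ a
        · exact absurd hc (c21 p' (by omega) q hqa)
        · obtain ⟨q', rfl⟩ : ∃ q', q = a + 1 + q' := ⟨q - (a + 1), by omega⟩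
          rw [c22] at hc
          have h1 := hG1 p' (by omega) q' (by omega) hc
          simp only [hpb, if_false, ins_hi, Nat.add_sub_cancel_left]
          have : decide (a + 1 + q' < b + 1 + p' + e) = decide (q' < p' + (e + b - a)) := by
            simp; omega
          rw [this]
          exact Tl.cons e a b _ _ _ hab h1
    · rw [Derivation.leibniz, smul_eq_mul, smul_eq_mul, hG2, E_der, lU, lV, sum_range_add _ (b + 1),
        add_comm (E e a b * _)]
      refine congrArg₂ (· + ·) ?_ ?_
      · rw [sum_comm, mul_sum]
        refine sum_congr rfl fun p hp => ?_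
        have hpb : p ≤ b := by simpa [Nat.lt_succ_iff] using hp
        rw [sum_range_add _ (a + 1) V.length, mul_sum]
        rw [sum_eq_zero (s := range V.length) (fun q hq => if_neg (c12 p hpb q (by simpa using hq))),
          add_zero]
        refine sum_congr rfl fun q hq => ?_
        have hqa : q ≤ a := by simpa [Nat.lt_succ_iff] using hq
        simp only [c11 p hpb q hqa, hpb, if_true]
        by_cases h1 : q = e + p
        · rw [if_pos h1, if_pos (by omega), if_pos h1, mul_comm]
        · rw [if_neg h1, if_neg h1]
          by_cases h2 : q < e + p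
          · rw [if_pos h2, if_pos (by omega)]; ring
          · rw [if_neg h2, if_neg (by omega), mul_zero]
      · rw [mul_sum]
        refine sum_congr rfl fun p hp => ?_
        have hp' : p < U.length := by simpa using hp
        rw [sum_range_add _ (a + 1) V.length, mul_sum]
        rw [sum_eq_zero (s := range (a + 1)) (fun q hq => if_neg (c21 p hp' q
          (by simpa [Nat.lt_succ_iff] using hq))), zero_add]
        refine sum_congr rfl fun q _ => ?_
        have : ¬ (b + 1 + p ≤ b) := by omega
        simp only [c22, this, if_false, Nat.add_sub_cancel_left]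
        split_ifs <;> simp

end Pool.Agent.H.MP_1660ca_co
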