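import Pool.Agent.H.MP_1660ca_co.A

namespace Pool.Agent.H.MP_1660ca_co

open Finset PowerSeries

def bef (l : List ℕ) (x y : ℕ) : Prop := [x, y].Sublist l

lemma bef_cons {z : ℕ} {t : List ℕ} {x y : ℕ} :
    bef (z :: t) x y ↔ (x = z ∧ y ∈ t) ∨ bef t x y := by
  unfold bef
  rw [List.sublist_cons_iff]
  constructor
  · rintro (h | ⟨r, h1, h2⟩)
    · exact Or.inr h
    · simp only [List.cons.injEq] at h1
      obtain ⟨rfl, rfl⟩ := h1
      exact Or.inl ⟨rfl, by simpa using h2⟩
  · rintro (⟨rfl, h⟩ | h)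
    · exact Or.inr ⟨[y], rfl, by simpa using h⟩
    · exact Or.inl h

lemma bef_nil {x y : ℕ} : ¬ bef [] x y := by simp [bef]

lemma bef_append {s t : List ℕ} {x y : ℕ} :
    bef (s ++ t) x y ↔ bef s x y ∨ (x ∈ s ∧ y ∈ t) ∨ bef t x y := by
  induction s with
  | nil => simp [bef_nil]
  | cons z s ih =>
    rw [List.cons_append, bef_cons, bef_cons, ih]
    simp only [List.mem_append, List.mem_cons]
    tauto

lemma bef.mem {l : List ℕ} {x y : ℕ} (h : bef l x y) : x ∈ l ∧ y ∈ l :=
  ⟨List.Sublist.subset h (by simp), List.Sublist.subset h (by simp)⟩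

lemma bef_mid {s t : List ℕ} {z x y : ℕ} :
    bef (s ++ z :: t) x y ↔ bef (s ++ t) x y ∨ (x ∈ s ∧ y = z) ∨ (x = z ∧ y ∈ t) := by
  rw [bef_append, bef_append, bef_cons]
  simp only [List.mem_cons]
  tauto

def good (u v : List ℕ) : Prop :=
  (∀ x y, bef u x y → bef v y x → x < y) ∧
    ∀ x y z, bef u x y → bef u y z → bef v z y → bef v y x → False

lemma good_old {s t s' t' : List ℕ} {z : ℕ} (h : good (s ++ z :: t) (s' ++ z :: t')) :
    good (s ++ t) (s' ++ t') :=
  ⟨fun x y h1 h2 => h.1 x y (bef_mid.2 (Or.inl h1)) (bef_mid.2 (Or.inl h2)),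
    fun x y w h1 h2 h3 h4 => h.2 x y w (bef_mid.2 (Or.inl h1)) (bef_mid.2 (Or.inl h2))
      (bef_mid.2 (Or.inl h3)) (bef_mid.2 (Or.inl h4))⟩

structure St (n : ℕ) (u v : List ℕ) (c : ℕ → Bool) : Prop where
  pu : u.Perm (List.range n)
  pv : v.Perm (List.range n)
  gd : good u v
  sp : ∀ y, c y = true ↔ ∃ x, bef u x y ∧ bef v y x
  f1 : u.filter c = v.filter c
  f2 : u.filter (fun x => !c x) = v.filter (fun x => !c x)

section
variable {n : ℕ} {s t s' t' : List ℕ} {c : ℕ → Bool}

lemma St.facts (h : St n (s ++ t) (s' ++ t') c) :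
    (∀ x, x ∈ s ∨ x ∈ t ↔ x < n) ∧ (∀ x, x ∈ s' ∨ x ∈ t' ↔ x < n) ∧
      (∀ x, x ∈ s → x ∈ t → False) ∧ (∀ x, x ∈ s' → x ∈ t' → False) ∧
      s.Nodup ∧ s'.Nodup := by
  have n1 : (s ++ t).Nodup := h.pu.nodup_iff.2 List.nodup_range
  have n2 : (s' ++ t').Nodup := h.pv.nodup_iff.2 List.nodup_range
  rw [List.nodup_append] at n1 n2
  refine ⟨fun x => ?_, fun x => ?_, fun x h1 h2 => n1.2.2 x h1 x h2 rfl,
    fun x h1 h2 => n2.2.2 x h1 x h2 rfl, n1.1, n2.1⟩
  · rw [← List.mem_append, h.pu.mem_iff, List.mem_range]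
  · rw [← List.mem_append, h.pv.mem_iff, List.mem_range]

lemma init_seg {s t : List ℕ} (hd : ∀ x, x ∈ s → x ∈ t → False) {x y : ℕ}
    (h : bef (s ++ t) x y) (hy : y ∈ s) : x ∈ s := by
  rcases bef_append.1 h with h | h | h
  · exact h.mem.1
  · exact h.1
  · exact (hd y hy h.mem.2).elim

lemma fin_seg {s t : List ℕ} (hd : ∀ x, x ∈ s → x ∈ t → False) {x y : ℕ}
    (h : bef (s ++ t) x y) (hx : x ∈ t) : y ∈ t := by
  rcases bef_append.1 h with h | h | h
  · exact (hd x h.mem.1 hx).elim
  · exact h.2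
  · exact h.mem.2

lemma good_new (h : St n (s ++ t) (s' ++ t') c) :
    good (s ++ n :: t) (s' ++ n :: t') ↔
      (∀ x ∈ s', x ∈ s) ∧ ∀ y ∈ s, y ∈ t' → c y = false := by
  obtain ⟨m1, m2, d1, d2, -, -⟩ := h.facts
  have lt1 : ∀ {x y}, bef (s ++ t) x y → x < n ∧ y < n := fun hb =>
    ⟨(m1 _).1 (List.mem_append.1 hb.mem.1), (m1 _).1 (List.mem_append.1 hb.mem.2)⟩
  have lt2 : ∀ {x y}, bef (s' ++ t') x y → x < n ∧ y < n := fun hb =>
    ⟨(m2 _).1 (List.mem_append.1 hb.mem.1), (m2 _).1 (List.mem_append.1 hb.mem.2)⟩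
  have a1 : ∀ {x}, x ∈ s → x < n := fun hx => (m1 _).1 (Or.inl hx)
  have a2 : ∀ {x}, x ∈ t → x < n := fun hx => (m1 _).1 (Or.inr hx)
  have a3 : ∀ {x}, x ∈ s' → x < n := fun hx => (m2 _).1 (Or.inl hx)
  have a4 : ∀ {x}, x ∈ t' → x < n := fun hx => (m2 _).1 (Or.inr hx)
  constructor
  · intro hg
    have k1 : ∀ x ∈ s', x ∈ s := by
      intro x hx
      rcases (m1 x).2 (a3 hx) with h1 | h1
      · exact h1
      · have := hg.1 n x (bef_mid.2 (Or.inr (Or.inr ⟨rfl, h1⟩)))
          (bef_mid.2 (Or.inr (Or.inl ⟨hx, rfl⟩)))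
        have := a3 hx
        omega
    refine ⟨k1, fun y hy hy' => ?_⟩
    by_contra hc
    obtain ⟨x, h1, h2⟩ := (h.sp y).1 (by simpa using hc)
    exact hg.2 x y n (bef_mid.2 (Or.inl h1)) (bef_mid.2 (Or.inr (Or.inl ⟨hy, rfl⟩)))
      (bef_mid.2 (Or.inr (Or.inr ⟨rfl, hy'⟩))) (bef_mid.2 (Or.inl h2))
  · rintro ⟨k1, k2⟩
    have key : ∀ x y, bef (s ++ n :: t) x y → bef (s' ++ n :: t') y x →
        (bef (s ++ t) x y ∧ bef (s' ++ t') y x) ∨ (y = n ∧ x ∈ s ∧ x ∈ t') := by
      intro x y g1 g2
      rcases bef_mid.1 g1 with h1 | ⟨h1, e1⟩ | ⟨e1, h1⟩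
      · rcases bef_mid.1 g2 with h2 | ⟨h2, e2⟩ | ⟨e2, h2⟩
        · exact Or.inl ⟨h1, h2⟩
        · exact absurd e2 (lt1 h1).1.ne
        · exact absurd e2 (lt1 h1).2.ne
      · rcases bef_mid.1 g2 with h2 | ⟨h2, _⟩ | ⟨_, h2⟩
        · exact absurd e1 (lt2 h2).1.ne
        · exact absurd e1 (a3 h2).ne
        · exact Or.inr ⟨e1, h1, h2⟩
      · rcases bef_mid.1 g2 with h2 | ⟨h2, _⟩ | ⟨_, h2⟩
        · exact absurd e1 (lt2 h2).2.ne
        · exact (d1 y (k1 y h2) h1).elim
        · exact absurd e1 (a4 h2).ne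
    constructor
    · intro x y h1 h2
      rcases key x y h1 h2 with ⟨h3, h4⟩ | ⟨rfl, h3, _⟩
      · exact h.gd.1 x y h3 h4
      · exact a1 h3
    · intro x y w h1 h2 h3 h4
      rcases key x y h1 h4 with ⟨h5, h6⟩ | ⟨rfl, h5, h6⟩
      · rcases key y w h2 h3 with ⟨h7, h8⟩ | ⟨rfl, h7, h8⟩
        · exact h.gd.2 x y w h5 h7 h8 h6
        · have := (h.sp y).2 ⟨x, h5, h6⟩
          rw [k2 y h7 h8] at this
          exact absurd this (by simp)
      · rcases key _ w h2 h3 with ⟨h7, h8⟩ | ⟨rfl, h7, h8⟩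
        · exact absurd (lt1 h7).1 (lt_irrefl _)
        · exact absurd (a1 h7) (lt_irrefl _)

lemma pre_of_len {α : Type*} {a b a' b' : List α} (h : a ++ b = a' ++ b')
    (hl : a'.length ≤ a.length) : ∃ r, a = a' ++ r := by
  have h1 : a <+: a ++ b := List.prefix_append a b
  have h2 : a' <+: a ++ b := h ▸ List.prefix_append a' b'
  obtain ⟨r, hr⟩ := List.prefix_of_prefix_length_le h2 h1 hl
  exact ⟨r, hr.symm⟩

lemma cnt_iff (h : St n (s ++ t) (s' ++ t') c) :
    ((∀ x ∈ s', x ∈ s) ∧ ∀ y ∈ s, y ∈ t' → c y = false) ↔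
      (s.filter c).length = (s'.filter c).length ∧ s'.length ≤ s.length := by
  obtain ⟨m1, m2, d1, d2, n1, n2⟩ := h.facts
  have f1 := h.f1
  have f2 := h.f2
  rw [List.filter_append, List.filter_append] at f1 f2
  constructor
  · rintro ⟨k1, k2⟩
    refine ⟨List.Perm.length_eq ?_, (List.subperm_of_subset n2 k1).length_le⟩
    rw [List.perm_ext_iff_of_nodup (n1.filter _) (n2.filter _)]
    intro x
    simp only [List.mem_filter]
    refine ⟨fun ⟨h1, h2⟩ => ⟨?_, h2⟩, fun ⟨h1, h2⟩ => ⟨k1 x h1, h2⟩⟩
    rcases (m2 x).2 ((m1 x).1 (Or.inl h1)) with h3 | h3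
    · exact h3
    · rw [k2 x h1 h3] at h2; exact absurd h2 (by simp)
  · rintro ⟨k1, k2⟩
    have e1 : s.filter c = s'.filter c := (List.append_inj f1 k1).1
    have l1 := List.length_eq_length_filter_add (l := s) c
    have l2 := List.length_eq_length_filter_add (l := s') c
    obtain ⟨r, hr⟩ := pre_of_len f2 (by omega)
    constructor
    · intro x hx
      by_cases hc : c x = true
      · have : x ∈ s.filter c := by rw [e1]; exact List.mem_filter.2 ⟨hx, hc⟩
        exact (List.mem_filter.1 this).1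
      · have : x ∈ s.filter (fun x => !c x) := by
          rw [hr]; exact List.mem_append_left _ (List.mem_filter.2 ⟨hx, by simpa using hc⟩)
        exact (List.mem_filter.1 this).1
    · intro y hy hy'
      by_contra hc
      have : y ∈ s'.filter c := by rw [← e1]; exact List.mem_filter.2 ⟨hy, by simpa using hc⟩
      exact d2 y (List.mem_filter.1 this).1 hy'

lemma St.next (h : St n (s ++ t) (s' ++ t') c) (hg : good (s ++ n :: t) (s' ++ n :: t')) :
    St (n + 1) (s ++ n :: t) (s' ++ n :: t')
      (fun y => if y = n then decide (s'.length < s.length) else c y) := by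
  obtain ⟨m1, m2, d1, d2, n1, n2⟩ := h.facts
  obtain ⟨k1, k2⟩ := (good_new h).1 hg
  obtain ⟨k3, k4⟩ := (cnt_iff h).1 ⟨k1, k2⟩
  have f1 := h.f1
  have f2 := h.f2
  rw [List.filter_append, List.filter_append] at f1 f2
  have e1 := List.append_inj f1 k3
  have l1 := List.length_eq_length_filter_add (l := s) c
  have l2 := List.length_eq_length_filter_add (l := s') c
  have a1 : ∀ x ∈ s, x ≠ n := fun x hx => ((m1 _).1 (Or.inl hx)).ne
  have a2 : ∀ x ∈ t, x ≠ n := fun x hx => ((m1 _).1 (Or.inr hx)).ne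
  have a3 : ∀ x ∈ s', x ≠ n := fun x hx => ((m2 _).1 (Or.inl hx)).ne
  have a4 : ∀ x ∈ t', x ≠ n := fun x hx => ((m2 _).1 (Or.inr hx)).ne
  have g1 : ∀ l : List ℕ, (∀ x ∈ l, x ≠ n) → l.filter
      (fun y => if y = n then decide (s'.length < s.length) else c y) = l.filter c :=
    fun l hl => List.filter_congr fun x hx => by simp [hl x hx]
  have g2 : ∀ l : List ℕ, (∀ x ∈ l, x ≠ n) → l.filter
      (fun y => !(if y = n then decide (s'.length < s.length) else c y)) =
        l.filter (fun y => !c y) :=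
    fun l hl => List.filter_congr fun x hx => by simp [hl x hx]
  refine ⟨?_, ?_, hg, ?_, ?_, ?_⟩
  · rw [List.range_succ]
    exact List.perm_middle.trans ((h.pu.cons n).trans (List.perm_append_singleton _ _).symm)
  · rw [List.range_succ]
    exact List.perm_middle.trans ((h.pv.cons n).trans (List.perm_append_singleton _ _).symm)
  · intro y
    by_cases hy : y = n
    · subst hy
      simp only [if_true, decide_eq_true_eq]
      constructor
      · intro hl
        by_contra hne
        have : ∀ x ∈ s, x ∈ s' := by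
          intro x hx
          rcases (m2 x).2 ((m1 x).1 (Or.inl hx)) with h3 | h3
          · exact h3
          · exact (hne ⟨x, bef_mid.2 (Or.inr (Or.inl ⟨hx, rfl⟩)),
              bef_mid.2 (Or.inr (Or.inr ⟨rfl, h3⟩))⟩).elim
        have := (List.subperm_of_subset n1 this).length_le
        omega
      · rintro ⟨x, h1, h2⟩
        have hx1 : x ∈ s := by
          rcases bef_mid.1 h1 with h1 | h1 | h1
          · rcases List.mem_append.1 h1.mem.2 with h3 | h3
            · exact (a1 _ h3 rfl).elim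
            · exact (a2 _ h3 rfl).elim
          · exact h1.1
          · exact (a2 _ h1.2 rfl).elim
        have hx2 : x ∈ t' := by
          rcases bef_mid.1 h2 with h2 | h2 | h2
          · rcases List.mem_append.1 h2.mem.1 with h3 | h3
            · exact (a3 _ h3 rfl).elim
            · exact (a4 _ h3 rfl).elim
          · exact (a3 _ h2.1 rfl).elim
          · exact h2.2
        have hn : (x :: s').Nodup := List.nodup_cons.2 ⟨fun h3 => d2 x h3 hx2, n2⟩
        have := (List.subperm_of_subset hn (l₂ := s) (fun z hz => by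
          rcases List.mem_cons.1 hz with rfl | hz
          · exact hx1
          · exact k1 z hz)).length_le
        simpa using this
    · simp only [hy, if_false]
      rw [h.sp]
      constructor
      · rintro ⟨x, h1, h2⟩
        exact ⟨x, bef_mid.2 (Or.inl h1), bef_mid.2 (Or.inl h2)⟩
      · rintro ⟨x, h1, h2⟩
        rcases bef_mid.1 h1 with h1 | h1 | h1
        · rcases bef_mid.1 h2 with h2 | h2 | h2
          · exact ⟨x, h1, h2⟩
          · rcases List.mem_append.1 h1.mem.1 with h3 | h3
            · exact (a1 _ h3 h2.2).elim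
            · exact (a2 _ h3 h2.2).elim
          · exact (hy h2.1).elim
        · exact (hy h1.2).elim
        · rcases bef_mid.1 h2 with h2 | h2 | h2
          · rcases List.mem_append.1 h2.mem.2 with h3 | h3
            · exact (a3 _ h3 h1.1).elim
            · exact (a4 _ h3 h1.1).elim
          · exact (d1 y (k1 y h2.1) h1.2).elim
          · exact (hy h2.1).elim
  · simp only [List.filter_append, List.filter_cons, g1 s a1, g1 t a2, g1 s' a3, g1 t' a4,
      if_true, e1.1, e1.2]
  · simp only [List.filter_append, List.filter_cons, g2 s a1, g2 t a2, g2 s' a3, g2 t' a4,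
      if_true]
    by_cases hl : s'.length < s.length
    · simpa [hl] using f2
    · have e2 := List.append_inj f2 (by omega)
      rw [e2.1, e2.2]
end

open Classical in
noncomputable def ext : ℕ → ℕ → List ℕ → List ℕ → ℕ
  | 0, _, _, _ => 1
  | k + 1, n, u, v => ∑ p ∈ range (n + 1), ∑ q ∈ range (n + 1),
      if good (ins u p n) (ins v q n) then ext k (n + 1) (ins u p n) (ins v q n) else 0

lemma cnt_map (l : List ℕ) (c : ℕ → Bool) : (l.map c).count true = (l.filter c).length := by
  induction l with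
  | nil => simp
  | cons x l ih => cases h : c x <;> simp [h, ih]

lemma ext_eq (k : ℕ) : ∀ (n : ℕ) (u v : List ℕ) (c : ℕ → Bool) (F : ℚ⟦X⟧), St n u v c →
    Tl 0 (true :: u.map c) (true :: v.map c) F → (ext k n u v : ℚ) = k.factorial * coeff k F := by
  induction k with
  | zero => intro n u v c F _ hT; simp [ext, hT.zero]
  | succ k ih =>
    intro n u v c F hS hT
    obtain ⟨G, hG1, hG2⟩ := step hT
    have lu : u.length = n := by simpa using hS.pu.length_eq
    have lv : v.length = n := by simpa using hS.pv.length_eq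
    have e0 : ((k + 1).factorial : ℚ) * coeff (k + 1) F = k.factorial * coeff k (d⁄dX ℚ F) := by
      rw [coeff_derivative, Nat.factorial_succ]; push_cast; ring
    rw [e0, hG2, ext]
    simp only [List.length_cons, List.length_map, lu, lv, map_sum, mul_sum] at hG1 ⊢
    push_cast
    refine sum_congr rfl fun p hp => sum_congr rfl fun q hq => ?_
    have hp' : p < n + 1 := by simpa using hp
    have hq' : q < n + 1 := by simpa using hq
    have hS' : St n (u.take p ++ u.drop p) (v.take q ++ v.drop q) c := by simpa using hS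
    have l1 : (u.take p).length = p := by simp; omega
    have l2 : (v.take q).length = q := by simp; omega
    have hiff : good (ins u p n) (ins v q n) ↔
        cond 0 (true :: u.map c) (true :: v.map c) p q := by
      unfold ins
      rw [good_new hS', cnt_iff hS', l1, l2]
      simp only [cond, List.take_succ_cons, ← List.map_take, List.count_cons, cnt_map]
      omega
    by_cases hg : good (ins u p n) (ins v q n)
    · rw [if_pos hg, if_pos (hiff.1 hg)]
      have h1 := hS'.next hg
      rw [l1, l2] at h1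
      refine ih (n + 1) _ _ _ _ h1 ?_
      have h2 := hG1 p hp' q hq' (hiff.1 hg)
      have hm : ∀ (w : List ℕ) (r : ℕ), w.Perm (List.range n) →
          (ins w r n).map (fun y => if y = n then decide (q < p) else c y) =
            ins (w.map c) r (decide (q < p)) := by
        intro w r hw
        have : ∀ x ∈ w, x ≠ n := fun x hx => (List.mem_range.1 (hw.mem_iff.1 hx)).ne
        simp only [ins, List.map_append, List.map_cons, if_true, ← List.map_take, ← List.map_drop]
        congr 1
        · exact List.map_congr_left fun x hx => by simp [this x (List.mem_of_mem_take hx)]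
        · congr 1
          exact List.map_congr_left fun x hx => by simp [this x (List.mem_of_mem_drop hx)]
      rw [hm u p hS.pu, hm v q hS.pv]
      simpa [ins] using h2
    · rw [if_neg hg, if_neg (fun h => hg (hiff.2 h))]
      simp

lemma ext_root (k : ℕ) : ext k 0 [] [] = K k 0 0 0 := by
  have hS : St 0 [] [] (fun _ => false) :=
    ⟨by simp, by simp, ⟨fun _ _ h => (bef_nil h).elim, fun _ _ _ h => (bef_nil h).elim⟩,
      fun y => by simp [bef_nil], rfl, rfl⟩
  have hT : Tl 0 (true :: ([] : List ℕ).map (fun _ => false))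
      (true :: ([] : List ℕ).map (fun _ => false)) (E 0 0 0 * 1) :=
    Tl.cons 0 0 0 [] [] 1 le_rfl (Tl.nil _)
  have := ext_eq k 0 [] [] _ _ hS hT
  rw [mul_one, E, coeff_mk, mul_div_cancel₀ _ (by positivity)] at this
  exact_mod_cast this

def L (n : ℕ) : Finset (List ℕ) := (List.range n).permutations.toFinset

lemma mem_L {n : ℕ} {l : List ℕ} : l ∈ L n ↔ l.Perm (List.range n) := by simp [L]

lemma sum_L (n : ℕ) (f : List ℕ → ℕ) :
    ∑ l ∈ L (n + 1), f l = ∑ l ∈ L n, ∑ p ∈ range (n + 1), f (ins l p n) := by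
  rw [← sum_product']
  symm
  refine sum_bij (fun a _ => ins a.1 a.2 n) ?_ ?_ ?_ (fun _ _ => rfl)
  · rintro ⟨l, p⟩ h
    have h1 := mem_L.1 (mem_product.1 h).1
    rw [mem_L, List.range_succ]
    refine List.perm_middle.trans ?_
    rw [List.take_append_drop]
    exact (h1.cons n).trans (List.perm_append_singleton _ _).symm
  · rintro ⟨l, p⟩ h ⟨l', p'⟩ h' e
    have h1 := mem_L.1 (mem_product.1 h).1
    have h2 := mem_L.1 (mem_product.1 h').1
    have h3 : p < n + 1 := by simpa using (mem_product.1 h).2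
    have h4 : p' < n + 1 := by simpa using (mem_product.1 h').2
    have l1 : l.length = n := by simpa using h1.length_eq
    have l2 : l'.length = n := by simpa using h2.length_eq
    have n1 : n ∉ l := fun hx => by simpa using h1.mem_iff.1 hx
    have n2 : n ∉ l' := fun hx => by simpa using h2.mem_iff.1 hx
    simp only [ins] at e
    rw [List.append_cons_inj_of_notMem (fun hx => n1 (List.mem_of_mem_take hx))
      (fun hx => n1 (List.mem_of_mem_drop hx))] at e
    have e1 := congrArg List.length e.1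
    simp only [List.length_take] at e1
    have : l = l' := by rw [← List.take_append_drop p l, e.1, e.2.2, List.take_append_drop]
    have : p = p' := by omega
    simp [*]
  · intro l hl
    have h1 := mem_L.1 hl
    obtain ⟨s, t, rfl⟩ := List.append_of_mem (h1.mem_iff.2 (List.mem_range.2 (Nat.lt_succ_self n)))
    have h2 : (s ++ t).Perm (List.range n) := by
      rw [List.range_succ] at h1
      exact ((List.perm_middle.symm.trans h1).trans (List.perm_append_singleton _ _)).cons_inv
    have h3 := h2.length_eq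
    simp only [List.length_append, List.length_range] at h3
    exact ⟨(s ++ t, s.length), mem_product.2 ⟨mem_L.2 h2, by simp; omega⟩, by simp [ins]⟩

open Classical in
lemma cnt_ext (k : ℕ) : ∀ n : ℕ,
    (∑ u ∈ L (n + k), ∑ v ∈ L (n + k), if good u v then 1 else 0) =
      ∑ u ∈ L n, ∑ v ∈ L n, if good u v then ext k n u v else 0 := by
  induction k with
  | zero => intro n; simp [ext]
  | succ k ih =>
    intro n
    have : n + (k + 1) = n + 1 + k := by ring
    rw [this, ih, sum_L]
    refine sum_congr rfl fun u _ => ?_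
    simp only [sum_L n]
    rw [sum_comm]
    refine sum_congr rfl fun v _ => ?_
    split_ifs with h
    · rw [ext]
    · refine sum_eq_zero fun p _ => sum_eq_zero fun q _ => if_neg fun hg => h ?_
      simpa using good_old hg

open Classical in
lemma cnt_K (k : ℕ) :
    (∑ u ∈ L k, ∑ v ∈ L k, if good u v then 1 else 0) = K k 0 0 0 := by
  have := cnt_ext k 0
  rw [zero_add] at this
  have hg : good [] [] := ⟨fun _ _ h => (bef_nil h).elim, fun _ _ _ h => (bef_nil h).elim⟩
  rw [this, ← ext_root]
  simp [L, hg]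

end Pool.Agent.H.MP_1660ca_co
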