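import Pool.Agent.H.MP_1660ca_co.B

namespace Pool.Agent.H.MP_1660ca_co

open Finset Equiv

def Inv {n : ℕ} (w : Perm (Fin n)) : Set (Fin n × Fin n) :=
  {p | p.1 < p.2 ∧ w.symm p.2 < w.symm p.1}

def IsDistrib {n : ℕ} (u v : Perm (Fin n)) : Prop :=
  ∃ D : DistribLattice {w : Perm (Fin n) // Inv u ⊆ Inv w ∧ Inv w ⊆ Inv v},
    ∀ x y, D.le x y ↔ Inv x.1 ⊆ Inv y.1

variable {n : ℕ}

lemma exists_perm (r : Fin n → Fin n → Prop) (irr : ∀ a, ¬ r a a)
    (tr : ∀ a b c, r a b → r b c → r a c) (tot : ∀ a b, a ≠ b → r a b ∨ r b a) :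
    ∃ w : Perm (Fin n), ∀ a b, w.symm a < w.symm b ↔ r a b := by
  classical
  have hlt : ∀ a, (univ.filter (fun x => r x a)).card < n := by
    intro a
    have : univ.filter (fun x => r x a) ⊂ univ :=
      filter_ssubset.2 ⟨a, mem_univ a, irr a⟩
    simpa using card_lt_card this
  let f : Fin n → Fin n := fun a => ⟨_, hlt a⟩
  have mono : ∀ a b, r a b → f a < f b := by
    intro a b h
    change (univ.filter (fun x => r x a)).card < (univ.filter (fun x => r x b)).card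
    refine card_lt_card (Finset.ssubset_iff_subset_ne.2 ⟨fun x hx => ?_, fun e => ?_⟩)
    · simp only [mem_filter, mem_univ, true_and] at hx ⊢
      exact tr _ _ _ hx h
    · have : a ∈ univ.filter (fun x => r x b) := by simpa using h
      rw [← e] at this
      exact irr a (by simpa using this)
  have inj : Function.Injective f := by
    intro a b e
    by_contra hne
    rcases tot a b hne with h | h
    · exact (mono _ _ h).ne e
    · exact (mono _ _ h).ne e.symm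
  refine ⟨(Equiv.ofBijective f (Finite.injective_iff_bijective.1 inj)).symm, fun a b => ?_⟩
  change f a < f b ↔ r a b
  refine ⟨fun h => ?_, mono a b⟩
  rcases tot a b (fun e => h.ne (by rw [e])) with h1 | h1
  · exact h1
  · exact absurd (mono _ _ h1) (not_lt.2 h.le)

lemma pos_ne (w : Perm (Fin n)) {a b : Fin n} (h : a ≠ b) : (w.symm a : ℕ) ≠ w.symm b :=
  fun e => h (w.symm.injective (Fin.ext e))

lemma mem_Inv {w : Perm (Fin n)} {a b : Fin n} :
    (a, b) ∈ Inv w ↔ (a : ℕ) < b ∧ (w.symm b : ℕ) < w.symm a := Iff.rfl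

lemma realize (S : Set (Fin n × Fin n)) (h0 : ∀ a b, (a, b) ∈ S → a < b)
    (h1 : ∀ a b c, (a, b) ∈ S → (b, c) ∈ S → (a, c) ∈ S)
    (h2 : ∀ a b c, a < b → b < c → (a, c) ∈ S → (a, b) ∈ S ∨ (b, c) ∈ S) :
    ∃ w : Perm (Fin n), Inv w = S := by
  obtain ⟨w, hw⟩ := exists_perm (fun a b => (a < b ∧ (a, b) ∉ S) ∨ (b, a) ∈ S)
    (fun a h => by
      rcases h with h | h
      · exact lt_irrefl _ h.1
      · exact lt_irrefl _ (h0 _ _ h))
    (fun a b c hab hbc => by
      rcases hab with ⟨g1, g2⟩ | g1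
      · rcases hbc with ⟨g3, g4⟩ | g3
        · exact Or.inl ⟨g1.trans g3, fun g => (h2 a b c g1 g3 g).elim g2 g4⟩
        · rcases lt_trichotomy a c with g | g | g
          · exact Or.inl ⟨g, fun g5 => g2 (h1 _ _ _ g5 g3)⟩
          · subst g; exact (g2 g3).elim
          · exact Or.inr ((h2 c a b g g1 g3).resolve_right g2)
      · rcases hbc with ⟨g3, g4⟩ | g3
        · rcases lt_trichotomy a c with g | g | g
          · exact Or.inl ⟨g, fun g5 => g4 (h1 _ _ _ g1 g5)⟩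
          · subst g; exact (g4 g1).elim
          · exact Or.inr ((h2 b c a g3 g g1).resolve_left g4)
        · exact Or.inr (h1 _ _ _ g3 g1))
    (fun a b hne => by
      rcases lt_or_gt_of_ne hne with g | g
      · by_cases g1 : (a, b) ∈ S
        · exact Or.inr (Or.inr g1)
        · exact Or.inl (Or.inl ⟨g, g1⟩)
      · by_cases g1 : (b, a) ∈ S
        · exact Or.inl (Or.inr g1)
        · exact Or.inr (Or.inl ⟨g, g1⟩))
  refine ⟨w, Set.ext fun ⟨a, b⟩ => ?_⟩
  change a < b ∧ w.symm b < w.symm a ↔ _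
  rw [hw]
  constructor
  · rintro ⟨g1, g2 | g2⟩
    · exact absurd g1 (not_lt.2 g2.1.le)
    · exact g2
  · exact fun g => ⟨h0 _ _ g, Or.inr g⟩

lemma Inv_inj : Function.Injective (Inv : Perm (Fin n) → _) := by
  intro u v e
  have key : ∀ a b, u.symm a < u.symm b → v.symm a < v.symm b := by
    intro a b h
    have hne : a ≠ b := fun e => h.ne (by rw [e])
    have h1 := pos_ne v hne
    have h2 : (a, b) ∈ Inv u ↔ (a, b) ∈ Inv v := by rw [e]
    have h3 : (b, a) ∈ Inv u ↔ (b, a) ∈ Inv v := by rw [e]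
    have h4 : (a : ℕ) ≠ b := fun e => hne (Fin.ext e)
    simp only [mem_Inv] at h2 h3
    rw [Fin.lt_def] at h ⊢
    omega
  have sm : StrictMono (fun i => v.symm (u i)) := fun i j hij => key _ _ (by simpa using hij)
  have : ∀ i, v.symm (u i) = i := by
    have h5 := (sm.orderIsoOfSurjective _ (v.symm.surjective.comp u.surjective))
    intro i
    have h6 : sm.orderIsoOfSurjective _ (v.symm.surjective.comp u.surjective) = OrderIso.refl _ :=
      Subsingleton.elim _ _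
    exact congrArg (fun g : Fin n ≃o Fin n => g i) h6
  ext i
  rw [← (symm_apply_eq v).1 (this i)]

def Tri (u v : Perm (Fin n)) : Prop :=
  ∃ a b c, u.symm a < u.symm b ∧ u.symm b < u.symm c ∧ v.symm c < v.symm b ∧ v.symm b < v.symm a

lemma closed (w : Perm (Fin n)) (a b c : Fin n) (h1 : (a, b) ∈ Inv w) (h2 : (b, c) ∈ Inv w) :
    (a, c) ∈ Inv w := ⟨h1.1.trans h2.1, h2.2.trans h1.2⟩

lemma coclosed (w : Perm (Fin n)) (a b c : Fin n) (h1 : a < b) (h2 : b < c)
    (h : (a, c) ∈ Inv w) : (a, b) ∈ Inv w ∨ (b, c) ∈ Inv w := by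
  have := pos_ne w h1.ne
  simp only [mem_Inv] at *
  rw [Fin.lt_def] at h1 h2
  omega

lemma distrib_of {u v : Perm (Fin n)} (hT : ¬ Tri u v) : IsDistrib u v := by
  have tri : ∀ a b c, (a, b) ∈ Inv v → (b, c) ∈ Inv v → (a, b) ∈ Inv u ∨ (b, c) ∈ Inv u := by
    intro a b c h1 h2
    by_contra hc
    apply hT
    have e1 := pos_ne u h1.1.ne
    have e2 := pos_ne u h2.1.ne
    refine ⟨a, b, c, ?_, ?_, h2.2, h1.2⟩ <;> simp only [mem_Inv, Fin.lt_def] at * <;> omega
  have hU : ∀ x y : {w : Perm (Fin n) // Inv u ⊆ Inv w ∧ Inv w ⊆ Inv v},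
      ∃ z : {w : Perm (Fin n) // Inv u ⊆ Inv w ∧ Inv w ⊆ Inv v}, Inv z.1 = Inv x.1 ∪ Inv y.1 := by
    intro x y
    obtain ⟨w, hw⟩ := realize (Inv x.1 ∪ Inv y.1) (fun a b h => h.elim (·.1) (·.1))
      (fun a b c h1 h2 => by
        rcases h1 with h1 | h1 <;> rcases h2 with h2 | h2
        · exact Or.inl (closed _ _ _ _ h1 h2)
        · rcases tri a b c (x.2.2 h1) (y.2.2 h2) with h | h
          · exact Or.inr (closed _ _ _ _ (y.2.1 h) h2)
          · exact Or.inl (closed _ _ _ _ h1 (x.2.1 h))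
        · rcases tri a b c (y.2.2 h1) (x.2.2 h2) with h | h
          · exact Or.inl (closed _ _ _ _ (x.2.1 h) h2)
          · exact Or.inr (closed _ _ _ _ h1 (y.2.1 h))
        · exact Or.inr (closed _ _ _ _ h1 h2))
      (fun a b c h1 h2 h => by
        rcases h with h | h
        · exact (coclosed _ _ _ _ h1 h2 h).imp Or.inl Or.inl
        · exact (coclosed _ _ _ _ h1 h2 h).imp Or.inr Or.inr)
    exact ⟨⟨w, hw ▸ x.2.1.trans Set.subset_union_left, hw ▸ Set.union_subset x.2.2 y.2.2⟩, hw⟩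
  have hI : ∀ x y : {w : Perm (Fin n) // Inv u ⊆ Inv w ∧ Inv w ⊆ Inv v},
      ∃ z : {w : Perm (Fin n) // Inv u ⊆ Inv w ∧ Inv w ⊆ Inv v}, Inv z.1 = Inv x.1 ∩ Inv y.1 := by
    intro x y
    obtain ⟨w, hw⟩ := realize (Inv x.1 ∩ Inv y.1) (fun a b h => h.1.1)
      (fun a b c h1 h2 => ⟨closed _ _ _ _ h1.1 h2.1, closed _ _ _ _ h1.2 h2.2⟩)
      (fun a b c h1 h2 h => by
        rcases coclosed _ _ _ _ h1 h2 h.1 with g1 | g1 <;>
          rcases coclosed _ _ _ _ h1 h2 h.2 with g2 | g2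
        · exact Or.inl ⟨g1, g2⟩
        · rcases tri a b c (x.2.2 g1) (y.2.2 g2) with g | g
          · exact Or.inl ⟨g1, y.2.1 g⟩
          · exact Or.inr ⟨x.2.1 g, g2⟩
        · rcases tri a b c (y.2.2 g2) (x.2.2 g1) with g | g
          · exact Or.inl ⟨x.2.1 g, g2⟩
          · exact Or.inr ⟨g1, y.2.1 g⟩
        · exact Or.inr ⟨g1, g2⟩)
    exact ⟨⟨w, hw ▸ Set.subset_inter x.2.1 y.2.1, hw ▸ Set.inter_subset_left.trans x.2.2⟩, hw⟩
  choose fU hfU using hU
  choose fI hfI using hI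
  exact ⟨@Function.Injective.distribLattice _ _ ⟨fU⟩ ⟨fI⟩ ⟨fun x y => Inv x.1 ⊆ Inv y.1⟩
    ⟨fun x y => Inv x.1 ⊂ Inv y.1⟩ _ (fun x => Inv x.1)
    (fun x y e => Subtype.ext (Inv_inj e)) Iff.rfl Iff.rfl hfU hfI, fun _ _ => Iff.rfl⟩

lemma compat {u v : Perm (Fin n)} : Inv u ⊆ Inv v ↔
    ∀ a b, u.symm a < u.symm b → v.symm b < v.symm a → a < b := by
  constructor
  · intro h a b h1 h2
    have hne : a ≠ b := fun e => h1.ne (by rw [e])
    rcases lt_or_gt_of_ne hne with g | g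
    · exact g
    · exact absurd (h (⟨g, h1⟩ : (b, a) ∈ Inv u)).2 (not_lt.2 h2.le)
  · rintro h ⟨a, b⟩ ⟨h1, h2⟩
    refine ⟨h1, ?_⟩
    by_contra h3
    have h4 := pos_ne v h1.ne
    have := h b a h2 (by simp only [Fin.lt_def] at *; omega)
    exact absurd h1 (not_lt.2 this.le)

def hh (u v : Perm (Fin n)) (a b c : Fin n) (i j k : ℕ) (d : Fin n) : ℕ :=
  if d = a then n + i else if d = b then n + j else if d = c then n + k
  else if u.symm d < u.symm a ∨ (u.symm d < u.symm c ∧ v.symm d < v.symm b) then u.symm d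
  else n + 3 + u.symm d

lemma hh_cases (u v : Perm (Fin n)) {a b c : Fin n} (hab : a ≠ b) (hac : a ≠ c) (hbc : b ≠ c)
    (d : Fin n) : (d = a ∧ ∀ i j k, hh u v a b c i j k d = n + i) ∨
      (d = b ∧ ∀ i j k, hh u v a b c i j k d = n + j) ∨
      (d = c ∧ ∀ i j k, hh u v a b c i j k d = n + k) ∨
      ((d ≠ a ∧ d ≠ b ∧ d ≠ c) ∧
        ((((u.symm d : ℕ) < u.symm a ∨ ((u.symm d : ℕ) < u.symm c ∧ (v.symm d : ℕ) < v.symm b)) ∧
          ∀ i j k, hh u v a b c i j k d = u.symm d) ∨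
        (¬ ((u.symm d : ℕ) < u.symm a ∨ ((u.symm d : ℕ) < u.symm c ∧ (v.symm d : ℕ) < v.symm b)) ∧
          ∀ i j k, hh u v a b c i j k d = n + 3 + u.symm d))) := by
  by_cases h1 : d = a
  · exact Or.inl ⟨h1, by simp [hh, h1]⟩
  by_cases h2 : d = b
  · exact Or.inr (Or.inl ⟨h2, by simp [hh, h2, hab.symm]⟩)
  by_cases h3 : d = c
  · exact Or.inr (Or.inr (Or.inl ⟨h3, by simp [hh, h3, hac.symm, hbc.symm]⟩))
  refine Or.inr (Or.inr (Or.inr ⟨⟨h1, h2, h3⟩, ?_⟩))
  by_cases h4 : u.symm d < u.symm a ∨ (u.symm d < u.symm c ∧ v.symm d < v.symm b)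
  · exact Or.inl ⟨h4, fun i j k => by simp only [hh, h1, h2, h3, h4, if_true, if_false]⟩
  · exact Or.inr ⟨h4, fun i j k => by simp only [hh, h1, h2, h3, h4, if_false]⟩

lemma exists_W {u v : Perm (Fin n)} (huv : Inv u ⊆ Inv v) {a b c : Fin n}
    (h1 : u.symm a < u.symm b) (h2 : u.symm b < u.symm c) (h3 : v.symm c < v.symm b)
    (h4 : v.symm b < v.symm a) (i j k : ℕ) (hi : i < 3) (hj : j < 3) (hk : k < 3)
    (hij : i ≠ j) (hik : i ≠ k) (hjk : j ≠ k) :
    ∃ w : {w : Perm (Fin n) // Inv u ⊆ Inv w ∧ Inv w ⊆ Inv v},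
      ∀ x y, (w.1.symm x : ℕ) < w.1.symm y ↔ hh u v a b c i j k x < hh u v a b c i j k y := by
  have hab : a ≠ b := fun e => h1.ne (by rw [e])
  have hbc : b ≠ c := fun e => h2.ne (by rw [e])
  have hac : a ≠ c := fun e => (h1.trans h2).ne (by rw [e])
  rw [Fin.lt_def] at h1 h2 h3 h4
  have key : ∀ x y, x ≠ y → hh u v a b c i j k x ≠ hh u v a b c i j k y ∧
      (hh u v a b c i j k x < hh u v a b c i j k y →
        (u.symm x : ℕ) < u.symm y ∨ (v.symm x : ℕ) < v.symm y) := by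
    intro x y hne
    have e1 := pos_ne u hne
    have e2 := (u.symm x).2
    have e3 := (u.symm y).2
    rcases hh_cases u v hab hac hbc x with ⟨rfl, g⟩ | ⟨rfl, g⟩ | ⟨rfl, g⟩ | ⟨g0, g | g⟩ <;>
      rcases hh_cases u v hab hac hbc y with ⟨rfl, g'⟩ | ⟨rfl, g'⟩ | ⟨rfl, g'⟩ | ⟨g0', g' | g'⟩
    all_goals first
      | exact absurd rfl hne
      | (rw [g, g']; omega)
      | (have := pos_ne v g0.2.1; have := pos_ne u g0.1; have := pos_ne u g0.2.2
         rw [g.2, g']; omega)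
      | (have := pos_ne v g0'.2.1; have := pos_ne u g0'.1; have := pos_ne u g0'.2.2
         rw [g, g'.2]; omega)
      | (have := pos_ne v g0'.2.1; have := pos_ne u g0'.1; have := pos_ne u g0'.2.2
         rw [g.2, g'.2]; omega)
  obtain ⟨w, hw⟩ := exists_perm (fun x y => hh u v a b c i j k x < hh u v a b c i j k y)
    (fun _ => lt_irrefl _) (fun _ _ _ => lt_trans)
    (fun x y hne => lt_or_gt_of_ne (key x y hne).1)
  refine ⟨⟨w, ?_, ?_⟩, hw⟩
  · rintro ⟨x, y⟩ hxy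
    have g1 := huv hxy
    have g2 := key x y hxy.1.ne
    have g3 := (hw y x).2
    simp only [mem_Inv, Fin.lt_def] at *
    omega
  · rintro ⟨x, y⟩ hxy
    have g1 := @huv (x, y)
    have g2 := key y x hxy.1.ne'
    have g3 := (hw y x).1
    simp only [mem_Inv, Fin.lt_def] at *
    omega

lemma not_distrib {u v : Perm (Fin n)} (huv : Inv u ⊆ Inv v) (hT : Tri u v) :
    ¬ IsDistrib u v := by
  obtain ⟨a, b, c, h1, h2, h3, h4⟩ := hT
  rintro ⟨D, hD⟩
  have hab : a < b := compat.1 huv a b h1 h4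
  have hbc : b < c := compat.1 huv b c h2 h3
  obtain ⟨x, hx⟩ := exists_W huv h1 h2 h3 h4 2 0 1 (by omega) (by omega) (by omega) (by omega)
    (by omega) (by omega)
  obtain ⟨y, hy⟩ := exists_W huv h1 h2 h3 h4 1 0 2 (by omega) (by omega) (by omega) (by omega)
    (by omega) (by omega)
  obtain ⟨z, hz⟩ := exists_W huv h1 h2 h3 h4 0 2 1 (by omega) (by omega) (by omega) (by omega)
    (by omega) (by omega)
  have hc := hh_cases u v hab.ne (hab.trans hbc).ne hbc.ne
  have key : ∀ p q : Fin n, p < q →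
      ((hh u v a b c 2 0 1 q < hh u v a b c 2 0 1 p ∧ hh u v a b c 0 2 1 q < hh u v a b c 0 2 1 p →
        hh u v a b c 1 0 2 q < hh u v a b c 1 0 2 p) ∧
      (hh u v a b c 2 0 1 q < hh u v a b c 2 0 1 p →
        hh u v a b c 1 0 2 q < hh u v a b c 1 0 2 p ∨ ((p : ℕ) = a ∧ (q : ℕ) = c))) := by
    intro p q hpq
    have e2 := (u.symm p).2
    have e3 := (u.symm q).2
    rw [Fin.lt_def] at hab hbc hpq
    rcases hc p with ⟨e0, g⟩ | ⟨e0, g⟩ | ⟨e0, g⟩ | ⟨-, ⟨-, g⟩ | ⟨-, g⟩⟩ <;>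
      rcases hc q with ⟨e, g'⟩ | ⟨e, g'⟩ | ⟨e, g'⟩ | ⟨-, ⟨-, g'⟩ | ⟨-, g'⟩⟩
    all_goals first
      | (have e' := congrArg Fin.val e; have e0' := congrArg Fin.val e0
         simp only [g, g']; omega)
      | (simp only [g, g']; omega)
  have va : ∀ i j k, hh u v a b c i j k a = n + i := by simp [hh]
  have vb : ∀ i j k, hh u v a b c i j k b = n + j := by simp [hh, hab.ne']
  have vc : ∀ i j k, hh u v a b c i j k c = n + k := by
    simp [hh, hbc.ne', (hab.trans hbc).ne']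
  have F1 : x ⊓ z ≤ y := by
    refine (hD _ _).2 ?_
    rintro ⟨p, q⟩ hpq
    have g1 := (hD _ _).1 (inf_le_left : x ⊓ z ≤ x) hpq
    have g2 := (hD _ _).1 (inf_le_right : x ⊓ z ≤ z) hpq
    exact ⟨hpq.1, (hy _ _).2 ((key p q hpq.1).1 ⟨(hx _ _).1 g1.2, (hz _ _).1 g2.2⟩)⟩
  have F2 : x ≤ y ⊔ z := by
    refine (hD _ _).2 ?_
    rintro ⟨p, q⟩ hpq
    have g1 := (hD _ _).1 (le_sup_left : y ≤ y ⊔ z)
    have g2 := (hD _ _).1 (le_sup_right : z ≤ y ⊔ z)
    rcases (key p q hpq.1).2 ((hx _ _).1 hpq.2) with g | ⟨e1, e2⟩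
    · exact g1 ⟨hpq.1, (hy _ _).2 g⟩
    · obtain rfl : p = a := Fin.ext e1
      obtain rfl : q = c := Fin.ext e2
      refine closed _ _ b _ (g1 ⟨hab, (hy _ _).2 ?_⟩) (g2 ⟨hbc, (hz _ _).2 ?_⟩)
      · simp only [va, vb]; omega
      · simp only [vb, vc]; omega
  have F3 : x ≤ y := by
    calc x = x ⊓ (y ⊔ z) := (inf_eq_left.2 F2).symm
      _ = (x ⊓ y) ⊔ (x ⊓ z) := inf_sup_left _ _ _
      _ ≤ y := sup_le inf_le_right F1
  have g1 : (a, c) ∈ Inv x.1 := ⟨hab.trans hbc, (hx _ _).2 (by simp only [va, vc]; omega)⟩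
  have g2 := (hy _ _).1 ((hD _ _).1 F3 g1).2
  simp only [va, vc] at g2
  omega

def word (w : Perm (Fin n)) : List ℕ := List.ofFn fun i => (w i : ℕ)

lemma bef_word {w : Perm (Fin n)} {x y : ℕ} :
    bef (word w) x y ↔ ∃ a b : Fin n, x = a ∧ y = b ∧ w.symm a < w.symm b := by
  constructor
  · intro h
    have : (word w).Pairwise (fun x y : ℕ => ∃ a b : Fin n, x = a ∧ y = b ∧ w.symm a < w.symm b) :=
      List.pairwise_ofFn.2 fun i j hij => ⟨w i, w j, rfl, rfl, by simpa using hij⟩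
    exact List.pairwise_iff_forall_sublist.1 this h
  · rintro ⟨a, b, rfl, rfl, h⟩
    have : (word w).Pairwise (fun x y => bef (word w) x y) :=
      List.pairwise_iff_forall_sublist.2 fun h => h
    simpa using List.pairwise_ofFn.1 this h

lemma good_word {u v : Perm (Fin n)} :
    good (word u) (word v) ↔ Inv u ⊆ Inv v ∧ ¬ Tri u v := by
  rw [compat]
  constructor
  · rintro ⟨h1, h2⟩
    refine ⟨fun a b g1 g2 => h1 a b (bef_word.2 ⟨a, b, rfl, rfl, g1⟩)
      (bef_word.2 ⟨b, a, rfl, rfl, g2⟩), ?_⟩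
    rintro ⟨a, b, c, g1, g2, g3, g4⟩
    exact h2 a b c (bef_word.2 ⟨a, b, rfl, rfl, g1⟩) (bef_word.2 ⟨b, c, rfl, rfl, g2⟩)
      (bef_word.2 ⟨c, b, rfl, rfl, g3⟩) (bef_word.2 ⟨b, a, rfl, rfl, g4⟩)
  · rintro ⟨h1, h2⟩
    constructor
    · intro x y g1 g2
      obtain ⟨a, b, rfl, rfl, k1⟩ := bef_word.1 g1
      obtain ⟨b', a', e1, e2, g2⟩ := bef_word.1 g2
      obtain rfl := Fin.ext e1
      obtain rfl := Fin.ext e2
      exact h1 a b k1 g2
    · intro x y z g1 g2 g3 g4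
      obtain ⟨a, b, rfl, rfl, k1⟩ := bef_word.1 g1
      obtain ⟨b', c, e1, rfl, k2⟩ := bef_word.1 g2
      obtain rfl := Fin.ext e1
      obtain ⟨c', b', e1, e2, g3⟩ := bef_word.1 g3
      obtain rfl := Fin.ext e1
      obtain rfl := Fin.ext e2
      obtain ⟨b', a', e1, e2, g4⟩ := bef_word.1 g4
      obtain rfl := Fin.ext e1
      obtain rfl := Fin.ext e2
      exact h2 ⟨a, b, c, k1, k2, g3, g4⟩

lemma word_inj : Function.Injective (word : Perm (Fin n) → _) := by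
  intro u v e
  have := List.ofFn_injective e
  ext i
  exact congrFun this i

lemma image_word : univ.image (word : Perm (Fin n) → _) = L n := by
  refine eq_of_subset_of_card_le (fun l hl => ?_) ?_
  · obtain ⟨w, -, rfl⟩ := mem_image.1 hl
    rw [mem_L]
    have h1 : (word w).Perm (List.ofFn fun i : Fin n => (i : ℕ)) :=
      Equiv.Perm.ofFn_comp_perm w (fun i : Fin n => (i : ℕ))
    have h2 : (List.ofFn fun i : Fin n => (i : ℕ)) = List.range n := by
      apply List.ext_getElem <;> simp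
    exact h2 ▸ h1
  · rw [card_image_of_injective _ word_inj, card_univ, Fintype.card_perm, Fintype.card_fin]
    refine (List.toFinset_card_le _).trans ?_
    simp [List.length_permutations]

theorem main (n : ℕ) :
    Nat.card {p : Perm (Fin n) × Perm (Fin n) // Inv p.1 ⊆ Inv p.2 ∧ IsDistrib p.1 p.2} =
      K n 0 0 0 := by
  classical
  rw [← cnt_K, ← image_word, sum_image (fun _ _ _ _ e => word_inj e)]
  simp only [sum_image (fun _ _ _ _ e => word_inj e)]
  rw [Nat.card_eq_fintype_card, Fintype.card_subtype, card_filter, ← sum_product',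
    univ_product_univ]
  refine sum_congr rfl fun p _ => ?_
  have : (Inv p.1 ⊆ Inv p.2 ∧ IsDistrib p.1 p.2) ↔ good (word p.1) (word p.2) := by
    rw [good_word]
    exact ⟨fun h => ⟨h.1, fun hT => not_distrib h.1 hT h.2⟩, fun h => ⟨h.1, distrib_of h.2⟩⟩
  simp only [this]

end Pool.Agent.H.MP_1660ca_co
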